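import Pool.Agent.W426.SM.Stm
import Pool.Agent.W803.SM.ZF

set_option autoImplicit false

/-! Project BF: rays of the normal fan which are B1 in a given direction give no poles. -/

namespace Pool.Agent.W425.BF

open Pool.Agent.W426.SM (gord face IsRay)
open Pool.Agent.W803.SM (filt)

/-- `a` is B1 in the direction `i`: exactly one monomial of the face of `a` is divisible by `x_i`,
and this one is not divisible by `x_i ^ 2`. -/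
def B1 {n k : ℕ} (m : Fin k → Fin n → ℕ) (i : Fin n) (a : Fin n → ℕ) : Prop :=
  a i ≠ 0 ∧ ∃ j0, face m a j0 ∧ m j0 i = 1 ∧ ∀ j, face m a j → j ≠ j0 → m j i = 0

/-- the rays which can be removed -/
def Rem {n k : ℕ} (m : Fin k → Fin n → ℕ) (i : Fin n) (a : Fin n → ℕ) : Prop :=
  B1 m i a ∧ ∃ x, x ≠ i ∧ a x ≠ 0

/-- parallel vectors -/
def Par {n : ℕ} (a b : Fin n → ℕ) : Prop :=
  ∃ M N : ℕ, 0 < M ∧ 0 < N ∧ ∀ x, M * a x = N * b x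

/-- index set of the constraints -/
abbrev Ix (k : ℕ) : Type := Fin k ⊕ ((Fin k × Fin k) ⊕ Fin k)

open Classical in
/-- the linear forms of the constraints defining the region `PA` of the vertex `j0` -/
noncomputable def cf {n k : ℕ} (m : Fin k → Fin n → ℕ) (i : Fin n) (j0 : Fin k) :
    Ix k → Fin n → ℤ
  | Sum.inl j => fun x => if j ≠ j0 ∧ 1 ≤ m j i then (m j x : ℤ) - m j0 x else 0
  | Sum.inr (Sum.inl (j, l)) => fun x => if j ≠ j0 ∧ 1 ≤ m j i ∧ m l i = 0 then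
      (if x = i then 0 else ((m j i : ℤ) - 1) * ((m l x : ℤ) - m j0 x) + ((m j x : ℤ) - m j0 x))
      else 0
  | Sum.inr (Sum.inr l) => fun x => if m l i = 0 then
      (if x = i then 0 else (m l x : ℤ) - m j0 x) else 0

open Classical in
/-- the constants of the constraints -/
noncomputable def cd {n k : ℕ} (m : Fin k → Fin n → ℕ) (i : Fin n) (j0 : Fin k) : Ix k → ℤ
  | Sum.inl j => if j ≠ j0 ∧ 1 ≤ m j i then 1 else 0
  | Sum.inr (Sum.inl (j, l)) => if j ≠ j0 ∧ 1 ≤ m j i ∧ m l i = 0 then 1 else 0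
  | Sum.inr (Sum.inr _) => 0

/-- the lattice points of a polyhedron -/
def Pol {n : ℕ} {ι : Type} (h : ι → Fin n → ℤ) (d : ι → ℤ) : Set (Fin n → ℕ) :=
  {u | ∀ j, d j ≤ ∑ x, h j x * (u x : ℤ)}

/-- extreme rays of the recession cone -/
def Ext {n : ℕ} {ι : Type} (h : ι → Fin n → ℤ) (a : Fin n → ℕ) : Prop :=
  a ≠ 0 ∧ (∀ j, 0 ≤ ∑ x, h j x * (a x : ℤ)) ∧
    ∀ u : Fin n → ℚ, (∀ x, a x = 0 → u x = 0) →
      (∀ j, ∑ x, h j x * (a x : ℤ) = 0 → ∑ x, (h j x : ℚ) * u x = 0) →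
      ∃ ρ : ℚ, ∀ x, u x = ρ * a x

/-- (GF) generating functions -/
def TaskGF : Prop :=
  ∀ {n : ℕ} {ι : Type} [Fintype ι] (h : ι → Fin n → ℤ) (d : ι → ℤ),
    ∃ (T : ℕ) (ray : Fin T → Fin n → ℕ) (P : MvPolynomial (Fin n) ℤ),
      (∀ q, Ext h (ray q)) ∧
      ∀ y : Fin n → ℂ, (∀ x, ‖y x‖ < 1) →
        (∑' u : Pol h d, ∏ x, y x ^ (u : Fin n → ℕ) x) * ∏ q, (1 - ∏ x, y x ^ ray q x) =
          MvPolynomial.aeval y P

/-- the region of the vertex `j0` -/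
noncomputable abbrev PA {n k : ℕ} (m : Fin k → Fin n → ℕ) (i : Fin n) (j0 : Fin k) :
    Set (Fin n → ℕ) := Pol (cf m i j0) (cd m i j0)

/-- the weight -/
noncomputable def W2 {n : ℕ} (p : ℕ) (c : Fin n → ℕ) (N : ℕ) (z t : ℂ) (u : Fin n → ℕ) : ℂ :=
  (p : ℂ)⁻¹ ^ (∑ x, u x) * z ^ (∑ x, c x * u x) * t ^ N

/-- the series -/
noncomputable def Gz {n k : ℕ} (m : Fin k → Fin n → ℕ) (γ : Finset (Fin k) → Polynomial ℂ)
    (p : ℕ) (c : Fin n → ℕ) (z t : ℂ) : ℂ :=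
  ∑' u : Fin n → ℕ, W2 p c (gord m u) z t u * (γ (filt m u)).eval t

/-- evaluation of a polynomial in `z` (inner variable) and `t` (outer variable) -/
noncomputable def ev2 (A : Polynomial (Polynomial ℂ)) (z t : ℂ) : ℂ :=
  Polynomial.eval₂ (Polynomial.evalRingHom z) t A

/-- the relations between the coefficients -/
def Rel {n k : ℕ} (m : Fin k → Fin n → ℕ) (i : Fin n) (p : ℕ) (E : ℂ)
    (γ : Finset (Fin k) → Polynomial ℂ) : Prop :=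
  (∀ j0, m j0 i = 1 → γ {j0} =
    Polynomial.C E * (1 - Polynomial.C ((p : ℂ)⁻¹) * Polynomial.X)) ∧
  ∀ (j0 : Fin k) (τ0 : Finset (Fin k)), m j0 i = 1 → (∀ l ∈ τ0, m l i = 0) → τ0.Nonempty →
    Polynomial.C ((p : ℂ) - 1) * γ (insert j0 τ0) + γ τ0 = Polynomial.C (((p : ℂ) - 1) * E)

/-- (I) the rays of the normal fan -/
def TaskI : Prop :=
  ∀ {n k : ℕ} (m : Fin k → Fin n → ℕ), 0 < k →
    ∃ (T : ℕ) (ray : Fin T → Fin n → ℕ), (∀ q, IsRay m (ray q)) ∧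
      ∀ (p : ℕ), 2 ≤ p → ∀ (c : Fin n → ℕ) (γ : Finset (Fin k) → Polynomial ℂ),
        ∃ A : Polynomial (Polynomial ℂ), ∀ z t : ℂ, ‖z‖ ≤ 1 → ‖t‖ ≤ 1 →
          Gz m γ p c z t * ∏ q, (1 - W2 p c (gord m (ray q)) z t (ray q)) = ev2 A z t

/-- (FIB) summation over the fibres in the direction `i` -/
def TaskFIB : Prop :=
  ∀ {n k : ℕ} (m : Fin k → Fin n → ℕ) (i : Fin n) (j0 : Fin k), m j0 i = 1 →
    ∀ (p : ℕ), 2 ≤ p → ∀ (c : Fin n → ℕ), c i = 0 →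
    ∀ (E : ℂ) (γ : Finset (Fin k) → Polynomial ℂ), Rel m i p E γ →
    ∀ z t : ℂ, ‖z‖ ≤ 1 → ‖t‖ ≤ 1 →
      ∑' u : PA m i j0, W2 p c (gord m u.1) z t u.1 * (γ (filt m u.1)).eval t =
        E * (1 - (p : ℂ)⁻¹ * t) * ∑' u : PA m i j0, W2 p c (∑ x, u.1 x * m j0 x) z t u.1

/-- (DISJ) the regions are disjoint -/
def TaskDISJ : Prop :=
  ∀ {n k : ℕ} (m : Fin k → Fin n → ℕ) (i : Fin n) (j0 j1 : Fin k), m j0 i = 1 → m j1 i = 1 →
    j0 ≠ j1 → Disjoint (PA m i j0) (PA m i j1)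

/-- (NPA) the extreme rays of the regions are not removable -/
def TaskNPA : Prop :=
  ∀ {n k : ℕ} (m : Fin k → Fin n → ℕ) (i : Fin n) (j0 : Fin k), m j0 i = 1 →
    ∀ ρ : Fin n → ℕ, Ext (cf m i j0) ρ → ∀ a, Rem m i a → ¬ Par a ρ

/-- (POS) the constraints of the apex are strictly positive at a B1 ray -/
def TaskPOS : Prop :=
  ∀ {n k : ℕ} (m : Fin k → Fin n → ℕ) (i : Fin n) (a : Fin n → ℕ), B1 m i a →
    ∃ j0, m j0 i = 1 ∧ face m a j0 ∧ ∀ q : Ix k,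
      (cf m i j0 q = 0 ∧ cd m i j0 q = 0) ∨ 0 < ∑ x, cf m i j0 q x * (a x : ℤ)

/-- (II) the rays of the cells outside the regions -/
def TaskII : Prop :=
  ∀ {n k : ℕ} (m : Fin k → Fin n → ℕ) (i : Fin n), 0 < k →
    ∃ (T : ℕ) (ray : Fin T → Fin n → ℕ) (N : Fin T → ℕ),
      (∀ q, ray q ≠ 0 ∧ ∀ a, Rem m i a → ¬ Par a (ray q)) ∧
      ∀ (p : ℕ), 2 ≤ p → ∀ (c : Fin n → ℕ), c i = 0 →
      ∀ (E : ℂ) (γ : Finset (Fin k) → Polynomial ℂ), Rel m i p E γ →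
        ∃ B : Polynomial (Polynomial ℂ), ∀ z t : ℂ, ‖z‖ ≤ 1 → ‖t‖ ≤ 1 →
          Gz m γ p c z t * ∏ q, (1 - W2 p c (N q) z t (ray q)) = ev2 B z t

/-- (ALG) divisibility -/
def TaskALG : Prop :=
  ∀ {n : ℕ} (i : Fin n) {T₁ T₂ : ℕ} (ray₁ : Fin T₁ → Fin n → ℕ) (N₁ : Fin T₁ → ℕ)
    (ray₂ : Fin T₂ → Fin n → ℕ) (N₂ : Fin T₂ → ℕ) (R : Finset (Fin T₁)),
    (∀ q ∈ R, 0 < N₁ q) → (∀ q', ray₂ q' ≠ 0) → (∀ q ∈ R, ∀ q', ¬ Par (ray₁ q) (ray₂ q')) →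
    ∃ c : Fin n → ℕ, c i = 0 ∧ ∀ (p : ℕ), 2 ≤ p → ∀ A B : Polynomial (Polynomial ℂ),
      (∀ z t : ℂ, ‖z‖ ≤ 1 → ‖t‖ ≤ 1 →
        ev2 A z t * ∏ q', (1 - W2 p c (N₂ q') z t (ray₂ q')) =
          ev2 B z t * ∏ q, (1 - W2 p c (N₁ q) z t (ray₁ q))) →
      ∃ A' : Polynomial ℂ, ∀ t : ℂ,
        ev2 A 1 t = A'.eval t * ∏ q ∈ R, (1 - W2 p c (N₁ q) 1 t (ray₁ q))

/-- (COMB) -/
def TaskCOMB : Prop :=
  ∀ {n k : ℕ} (m : Fin k → Fin n → ℕ) (i : Fin n), 0 < k →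
    ∃ (T : ℕ) (ray : Fin T → Fin n → ℕ), (∀ q, IsRay m (ray q) ∧ ¬ Rem m i (ray q)) ∧
      ∀ (p : ℕ), 2 ≤ p → ∀ (E : ℂ) (γ : Finset (Fin k) → Polynomial ℂ), Rel m i p E γ →
        ∃ A : Polynomial ℂ, ∀ t : ℂ, ‖t‖ < 1 →
          (∑' u : Fin n → ℕ, (p : ℂ)⁻¹ ^ (∑ x, u x) * t ^ gord m u * (γ (filt m u)).eval t) *
            ∏ q, (1 - (p : ℂ)⁻¹ ^ (∑ x, ray q x) * t ^ gord m (ray q)) = A.eval t

/-- (FCT) counting over a finite field -/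
def TaskFCT : Prop :=
  ∀ (p : ℕ) [Fact p.Prime] {n k : ℕ} (m : Fin k → Fin n → ℕ) (i : Fin n) (j0 : Fin k)
    (τ0 : Finset (Fin k)) (b : Fin k → ZMod p), m j0 i = 1 → (∀ l ∈ τ0, m l i = 0) →
    b j0 ≠ 0 →
    (p - 1) * {y : Fin n → ZMod p | (∀ x, y x ≠ 0) ∧
        ∑ j ∈ insert j0 τ0, b j * ∏ x, y x ^ m j x = 0}.ncard +
      {y : Fin n → ZMod p | (∀ x, y x ≠ 0) ∧ ∑ j ∈ τ0, b j * ∏ x, y x ^ m j x = 0}.ncard =
    (p - 1) ^ n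

/-- (CNT) the measure of a set given by residues modulo `p` -/
def TaskCNT : Prop :=
  ∀ (p : ℕ) [Fact p.Prime] {n : ℕ}
    [MeasurableSpace (Fin n → PadicInt p)] [BorelSpace (Fin n → PadicInt p)]
    (S : Set (Fin n → ZMod p)),
    ((MeasureTheory.Measure.addHaar : MeasureTheory.Measure (Fin n → PadicInt p))
      {y | (fun x => PadicInt.toZMod (y x)) ∈ S}).toReal =
    ((MeasureTheory.Measure.addHaar : MeasureTheory.Measure (Fin n → PadicInt p))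
      Set.univ).toReal * (S.ncard : ℝ) / (p : ℝ) ^ n

/-- (CELL) the complement of the regions is a finite disjoint union of polyhedra on which the set
of the minimal monomials is constant, without removable rays -/
def TaskCELL : Prop :=
  ∀ {n k : ℕ} (m : Fin k → Fin n → ℕ) (i : Fin n), 0 < k →
    ∃ (S : ℕ) (ι : Type) (_ : Fintype ι) (h : Fin S → ι → Fin n → ℤ) (d : Fin S → ι → ℤ)
      (τ : Fin S → Finset (Fin k)),
      (∀ σ, ∀ u ∈ Pol (h σ) (d σ), filt m u = τ σ) ∧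
      (∀ σ, (τ σ).Nonempty) ∧
      (∀ u, (∃ j0, m j0 i = 1 ∧ u ∈ PA m i j0) ∨ ∃ σ, u ∈ Pol (h σ) (d σ)) ∧
      (∀ σ, ∀ u ∈ Pol (h σ) (d σ), ∀ j0, m j0 i = 1 → u ∉ PA m i j0) ∧
      (∀ σ σ', σ ≠ σ' → Disjoint (Pol (h σ) (d σ)) (Pol (h σ') (d σ'))) ∧
      (∀ σ ρ, Ext (h σ) ρ → ∀ a, Rem m i a → ¬ Par a ρ)

/-- (IIA) assembly of (II) -/
def TaskIIA : Prop := TaskGF → TaskFIB → TaskDISJ → TaskNPA → TaskCELL → TaskII

/-- (IA) -/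
def TaskIA : Prop := TaskGF → TaskI

/-- (COMBA) -/
def TaskCOMBA : Prop := TaskI → TaskII → TaskALG → TaskCOMB

end Pool.Agent.W425.BF
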