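import Pool.Agent.W425.BF.Fin2
import Pool.Agent.W425.PZ.Fin2

set_option autoImplicit false
set_option linter.unusedSectionVars false

/-! Project BF: Poincare series and Igusa zeta functions of integral polynomials. -/

namespace Pool.Agent.W425.BF

open MvPolynomial MeasureTheory Filter Topology Pool.Agent.W425.MM Pool.Agent.W425.PZ
open Pool.Agent.W206.CU
open Pool.Agent.W427.SMC (igusaZeta)
open Pool.Agent.W425.ND (spa)

/-- **Poles of the Poincare series, generic coefficients.** -/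
theorem gen_poincareB (hFCT : TaskFCT) (hCNT : TaskCNT) (hC : TaskCOMB) (hN : TaskNull) {n r : ℕ} (hr : 0 < r) (v : Fin r → Fin n → ℕ)
    (hv : Function.Injective v) (hv0 : ∀ j, v j ≠ 0) (h : MvPolynomial (Fin n) ℤ)
    (hh : ∀ w ∈ h.support, Pool.Agent.W425.SV.NP v w) (hB : Hyp v h) :
    ∃ g : MvPolynomial (Fin r) ℚ, g ≠ 0 ∧ ∀ c : Fin r → ℤ, eval (fun j => (c j : ℚ)) g ≠ 0 →
      ∃ S : Finset ℕ, ∀ p : ℕ, p.Prime → p ∉ S → ∀ (T₀ : ℂ) (m : ℕ), 0 < m →
        IsPoleOfOrder (poincare p (spa v c + h)) T₀ m → ∀ b : Polynomial ℂ,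
          Pool.Agent.H628R4.TP.IsBFunction (MvPolynomial.map (Int.castRingHom ℂ) (spa v c + h)) b →
          b.eval ((-Real.log ‖T₀‖ / Real.log p : ℝ) : ℂ) = 0 := by
  obtain ⟨g1, hg1, h1⟩ := gen_padicB hFCT hCNT hC hr v hv hv0
    (MvPolynomial.map (Int.castRingHom ℚ) h)
    (fun w hw => hh w (MvPolynomial.support_map_subset _ _ hw)) (hB.map _)
  obtain ⟨g2, hg2, h2⟩ := Pool.Agent.W425.GN.gen_ne (F := ℚ) hr v hv
    (MvPolynomial.map (Int.castRingHom ℚ) h)
  refine ⟨g1 * g2, mul_ne_zero hg1 hg2, fun c hc => ?_⟩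
  rw [map_mul] at hc
  obtain ⟨S, hS⟩ := h1 (fun j => (c j : ℚ)) (left_ne_zero_of_mul hc)
  have hmap : MvPolynomial.map (Int.castRingHom ℚ) (spa v c + h) =
      spa v (fun j => (c j : ℚ)) + MvPolynomial.map (Int.castRingHom ℚ) h := by
    rw [map_add]
    congr 1
    unfold spa
    simp
  have hmapC : MvPolynomial.map (algebraMap ℚ ℂ)
      (spa v (fun j => (c j : ℚ)) + MvPolynomial.map (Int.castRingHom ℚ) h) =
      MvPolynomial.map (Int.castRingHom ℂ) (spa v c + h) := by
    rw [← hmap, MvPolynomial.map_map]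
    congr 1
  have hne : spa v c + h ≠ 0 := by
    intro h0
    refine h2 (fun j => ((c j : ℚ) : ℂ)) ?_ ?_
    · have h5 := aeval_algebraMap_apply ℂ (fun j => (c j : ℚ)) g2
      intro h6
      apply right_ne_zero_of_mul hc
      have h7 : ((eval (fun j => (c j : ℚ)) g2 : ℚ) : ℂ) = 0 := by
        rw [← h6]
        exact h5.symm
      exact_mod_cast h7
    · have h8 := congrArg (MvPolynomial.map (Int.castRingHom ℂ)) h0
      rw [← hmapC, map_zero, map_add] at h8
      rw [← h8]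
      congr 1
      unfold spa
      simp
  refine ⟨S, fun p hp hpS T₀ m hm hP b hb => ?_⟩
  have : Fact p.Prime := ⟨hp⟩
  let _ : MeasurableSpace (Fin n → PadicInt p) := borel _
  have _ : BorelSpace (Fin n → PadicInt p) := ⟨rfl⟩
  obtain ⟨Z, s₀, hZ, hZi, hZo, hre⟩ := pole_of_poincare p (spa v c + h) (hN hne) hm hP
  set V : ℂ := (((Measure.addHaar : Measure (Fin n → PadicInt p)) Set.univ).toReal : ℂ) with hV
  have hV0 : V ≠ 0 := by
    have : (0 : ℝ) < ((Measure.addHaar : Measure (Fin n → PadicInt p)) Set.univ).toReal :=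
      ENNReal.toReal_pos ((isOpen_univ.measure_pos _ Set.univ_nonempty).ne') (measure_ne_top _ _)
    rw [hV]
    exact_mod_cast this.ne'
  have h3 := hS p hpS (fun s => V * Z s) (fun s hs => (MeromorphicAt.const V s).mul (hZ s hs))
    (fun s hs => by
      rw [hZi s hs, ← integral_haar p (spa v c + h) s, hmap]) s₀ (by
      have h4 : meromorphicOrderAt (fun s => V * Z s) s₀ = meromorphicOrderAt Z s₀ := by
        have h5 := meromorphicOrderAt_mul_of_ne_zero (f := Z) (g := fun _ : ℂ => V)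
          (analyticAt_const (x := s₀)) hV0
        exact h5
      rw [h4]
      exact hZo) b (by rw [hmapC]; exact hb)
  rw [hre] at h3
  exact h3

/-- **Poles of the Igusa zeta function, generic coefficients.** -/
theorem gen_igusaB (hFCT : TaskFCT) (hCNT : TaskCNT) (hC : TaskCOMB) {n r : ℕ} (hr : 0 < r) (v : Fin r → Fin n → ℕ)
    (hv : Function.Injective v) (hv0 : ∀ j, v j ≠ 0) (h : MvPolynomial (Fin n) ℤ)
    (hh : ∀ w ∈ h.support, Pool.Agent.W425.SV.NP v w) (hB : Hyp v h) :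
    ∃ g : MvPolynomial (Fin r) ℚ, g ≠ 0 ∧ ∀ c : Fin r → ℤ, eval (fun j => (c j : ℚ)) g ≠ 0 →
      ∃ p₀ : ℕ, ∀ (p : ℕ) [Fact p.Prime], p₀ ≤ p → ∀ Z : ℂ → ℂ, MeromorphicOn Z Set.univ →
        (∀ s : ℂ, 0 < s.re → Z s = igusaZeta p (spa v c + h) s) →
        ∀ s₀ : ℂ, meromorphicOrderAt Z s₀ < 0 → ∀ b : Polynomial ℂ,
          Pool.Agent.H628R4.TP.IsBFunction (MvPolynomial.map (Int.castRingHom ℂ) (spa v c + h)) b →
          b.eval (s₀.re : ℂ) = 0 := by
  obtain ⟨g1, hg1, h1⟩ := gen_padicB hFCT hCNT hC hr v hv hv0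
    (MvPolynomial.map (Int.castRingHom ℚ) h)
    (fun w hw => hh w (MvPolynomial.support_map_subset _ _ hw)) (hB.map _)
  refine ⟨g1, hg1, fun c hc => ?_⟩
  obtain ⟨S, hS⟩ := h1 (fun j => (c j : ℚ)) hc
  have hmap : MvPolynomial.map (Int.castRingHom ℚ) (spa v c + h) =
      spa v (fun j => (c j : ℚ)) + MvPolynomial.map (Int.castRingHom ℚ) h := by
    rw [map_add]
    congr 1
    unfold spa
    simp
  have hmapC : MvPolynomial.map (algebraMap ℚ ℂ)
      (spa v (fun j => (c j : ℚ)) + MvPolynomial.map (Int.castRingHom ℚ) h) =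
      MvPolynomial.map (Int.castRingHom ℂ) (spa v c + h) := by
    rw [← hmap, MvPolynomial.map_map]
    congr 1
  refine ⟨S.sup id + 1, fun p hpf hp Z hZ hZi s₀ hs₀ b hb => ?_⟩
  have hpS : p ∉ S := fun hmem => by
    have := Finset.le_sup (f := id) hmem
    simp only [id] at this
    omega
  let _ : MeasurableSpace (Fin n → PadicInt p) := borel _
  have _ : BorelSpace (Fin n → PadicInt p) := ⟨rfl⟩
  set V : ℂ := (((Measure.addHaar : Measure (Fin n → PadicInt p)) Set.univ).toReal : ℂ) with hV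
  have hV0 : V ≠ 0 := by
    have : (0 : ℝ) < ((Measure.addHaar : Measure (Fin n → PadicInt p)) Set.univ).toReal :=
      ENNReal.toReal_pos ((isOpen_univ.measure_pos _ Set.univ_nonempty).ne') (measure_ne_top _ _)
    rw [hV]
    exact_mod_cast this.ne'
  exact hS p hpS (fun s => V * Z s) (fun s hs => (MeromorphicAt.const V s).mul (hZ s hs))
    (fun s hs => by
      rw [hZi s hs, ← integral_haar p (spa v c + h) s, hmap]) s₀ (by
      have h4 : meromorphicOrderAt (fun s => V * Z s) s₀ = meromorphicOrderAt Z s₀ := by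
        have h5 := meromorphicOrderAt_mul_of_ne_zero (f := Z) (g := fun _ : ℂ => V)
          (analyticAt_const (x := s₀)) hV0
        exact h5
      rw [h4]
      exact hs₀) b (by rw [hmapC]; exact hb)

end Pool.Agent.W425.BF
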