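import Pool.Agent.W425.BF.GF
import Pool.Agent.W425.BF.Fin3
import Pool.Agent.W195.PZ.Null
import Pool.Agent.W121.BF.Alg
import Pool.Agent.W177.BF.IIA
import Pool.Agent.W204.BF.Fib
import Pool.Agent.W303.BF.Geom
import Pool.Agent.W386.BF.CNT
import Pool.Agent.W33.BF.COMBA
import Pool.Agent.W318.BF.FCT
import Pool.Agent.W715.BF.Cell
import Pool.Agent.W489.BF.IA

set_option autoImplicit false

/-! Project BF: assembly. -/

namespace Pool.Agent.W425.BF

theorem comb : TaskCOMB :=
  Pool.Agent.W33.BF.main (Pool.Agent.W489.BF.main gf)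
    (Pool.Agent.W177.BF.main gf Pool.Agent.W204.BF.main Pool.Agent.W303.BF.disj
      Pool.Agent.W303.BF.npa (Pool.Agent.W715.BF.main Pool.Agent.W303.BF.pos))
    Pool.Agent.W121.BF.main

theorem fct : TaskFCT := Pool.Agent.W318.BF.main

theorem cnt : TaskCNT := Pool.Agent.W386.BF.main

end Pool.Agent.W425.BF
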