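import Pool.Agent.W425.BF.Zf
import Pool.Agent.W425.PZ.Fin

set_option autoImplicit false

/-! Project BF: p-adic zeta functions of polynomials with generic coefficients, with rays which are
B1 in a common direction. -/

namespace Pool.Agent.W425.BF

open MvPolynomial Pool.Agent.H628R4.TP Pool.Agent.W425.MM Pool.Agent.W425.GN
open Pool.Agent.W425.ND (spa)
open Pool.Agent.W426.SM (gord IsRay face)

variable {r N : ℕ}

/-- `a` is B1 in the direction `i`: exactly one of the monomials of `v` and `h` of minimal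
`a`-weight is divisible by `x_i` (the monomial of `v j0`; it may also occur in `h`), and it is not
divisible by `x_i ^ 2`. -/
def BD {R : Type} [CommRing R] (v : Fin r → Fin N → ℕ) (h : MvPolynomial (Fin N) R) (i : Fin N)
    (a : Fin N → ℕ) : Prop :=
  a i ≠ 0 ∧ ∃ j0, face v a j0 ∧ v j0 i = 1 ∧ (∀ j, face v a j → j ≠ j0 → v j i = 0) ∧
    ∀ w ∈ h.support, ∑ x, a x * w x = gord v a → w i = 0 ∨ ∀ x, w x = v j0 x

/-- the assumption on the rays of the normal fan -/
def Hyp {R : Type} [CommRing R] (v : Fin r → Fin N → ℕ) (h : MvPolynomial (Fin N) R) : Prop :=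
  ∀ a : Fin N → ℕ, IsRay v a → 0 < gord v a → ∑ i, a i = gord v a ∨
    (∃ a' : Fin N → ℕ, 0 < gord v a' ∧ NonB v False a' ∧
      ((∑ i, a i : ℕ) : ℚ) / gord v a = ((∑ i, a' i : ℕ) : ℚ) / gord v a') ∨
    ∃ i, ∀ a' : Fin N → ℕ, IsRay v a' → 0 < gord v a' →
      ((∑ i, a i : ℕ) : ℚ) / gord v a = ((∑ i, a' i : ℕ) : ℚ) / gord v a' → BD v h i a'

theorem Hyp.map {R S : Type} [CommRing R] [CommRing S] (φ : R →+* S) {v : Fin r → Fin N → ℕ}
    {h : MvPolynomial (Fin N) R} (hB : Hyp v h) : Hyp v (MvPolynomial.map φ h) := by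
  intro a ha hg
  rcases hB a ha hg with h1 | h1 | ⟨i, hi⟩
  · exact Or.inl h1
  · exact Or.inr (Or.inl h1)
  · refine Or.inr (Or.inr ⟨i, fun a' ha' hg' hq => ?_⟩)
    obtain ⟨hai, j0, hf, hv1, hu, hw⟩ := hi a' ha' hg' hq
    exact ⟨hai, j0, hf, hv1, hu, fun w hw' => hw w (MvPolynomial.support_map_subset _ _ hw')⟩

/-- the roots of the rays with property J -/
theorem hp_nonB [NeZero r] {F : Type} [Field F] (v : Fin r → Fin N → ℕ)
    (hv : Function.Injective v) (hv0 : ∀ j, v j ≠ 0) (h : MvPolynomial (Fin N) F)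
    (hh : ∀ w ∈ h.support, Pool.Agent.W425.SV.NP v w)
    (u : Fin N → ℕ) (hgu : 0 < gord v u) (hu : NonB v False u) :
    HP v h (-(((∑ i, u i : ℕ) : ℚ) / gord v u)) 0 := by
  intro F' _ _ a h' ha hs b hb
  have hb' := (Pool.Agent.W591.GC.J_bot _ b).2 ((bfun_iff _ _).2 hb)
  have hbot : ∀ g ∈ (⊥ : Submonoid (MvPolynomial (Fin N) ℂ)),
      MvPolynomial.constantCoeff g = 1 ∧ (¬ False → g = 1) := fun g hg => by
    rw [Submonoid.mem_bot] at hg
    exact ⟨by rw [hg, map_one], fun _ => hg⟩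
  have hh' : ∀ w ∈ h'.support, Pool.Agent.W425.SV.NP v w := fun w hw => hh w (hs w hw)
  rw [zero_add, pow_one, Polynomial.dvd_iff_isRoot]
  have h2 := (root_strong False ⊥ hbot v a hv hv0 ha h' hh' b hb').2 u hgu hu
  show b.eval _ = 0
  rw [← h2]
  congr 1
  push_cast
  ring

/-- **The roots for generic coefficients.** -/
theorem gen_rootsJ {F : Type} [Field F] [Algebra F ℂ] (hr : 0 < r) (v : Fin r → Fin N → ℕ)
    (hv : Function.Injective v) (hv0 : ∀ j, v j ≠ 0) (h : MvPolynomial (Fin N) F)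
    (hh : ∀ w ∈ h.support, Pool.Agent.W425.SV.NP v w) :
    ∃ g : MvPolynomial (Fin r) F, g ≠ 0 ∧ ∀ c : Fin r → ℂ, aeval c g ≠ 0 →
      ∀ b : Polynomial ℂ, IsBFunction (spa v c + MvPolynomial.map (algebraMap F ℂ) h) b →
        b.eval (-1) = 0 ∧
        ∀ a : Fin N → ℕ, 0 < gord v a → NonB v False a →
          b.eval (-(((∑ i, a i : ℕ) : ℂ) / gord v a)) = 0 := by
  have hne : NeZero r := ⟨by omega⟩
  obtain ⟨g, hg, hgb⟩ := univ pF4 pR1 hr v hv h
  refine ⟨g, hg, fun c hc b hb => ⟨?_, fun a hga ha => ?_⟩⟩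
  · have h2 := hgb c hc b ((bfun_iff _ _).1 hb) (-1) 0 (hp_root v hv hv0 h hh)
    rw [zero_add, pow_one, Polynomial.dvd_iff_isRoot] at h2
    have h3 : b.eval _ = 0 := h2
    push_cast at h3
    exact h3
  · have h2 := hgb c hc b ((bfun_iff _ _).1 hb) _ 0 (hp_nonB v hv hv0 h hh a hga ha)
    rw [zero_add, pow_one, Polynomial.dvd_iff_isRoot] at h2
    have h3 : b.eval _ = 0 := h2
    rw [← h3]
    congr 1
    push_cast
    ring

/-- the conclusion, for the coefficient vector `c` -/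
def Concl (v : Fin r → Fin N → ℕ) (h : MvPolynomial (Fin N) ℚ) (c : Fin r → ℚ) : Prop :=
      ∃ S : Finset ℕ, ∀ (p : ℕ) [Fact p.Prime], p ∉ S →
      ∀ [MeasurableSpace (Fin N → PadicInt p)] [BorelSpace (Fin N → PadicInt p)],
      ∀ F : ℂ → ℂ, MeromorphicOn F Set.univ →
        (∀ s : ℂ, 0 < s.re →
          F s = ∫ x, ((‖MvPolynomial.eval₂ (algebraMap ℚ (Padic p))
                    (fun i => ((x i : PadicInt p) : Padic p)) (spa v c + h)‖ : ℝ) : ℂ) ^ s
                  ∂(MeasureTheory.Measure.addHaar : MeasureTheory.Measure (Fin N → PadicInt p))) →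
        ∀ s₀ : ℂ, meromorphicOrderAt F s₀ < 0 → ∀ b : Polynomial ℂ,
          IsBFunction (MvPolynomial.map (algebraMap ℚ ℂ) (spa v c + h)) b →
          b.eval (s₀.re : ℂ) = 0

/-- if the monomials `x ^ v_j` do not occur in `h` -/
theorem gen_padic0 (hFCT : TaskFCT) (hCNT : TaskCNT) (hC : TaskCOMB) (hr : 0 < r)
    (v : Fin r → Fin N → ℕ) (hv : Function.Injective v) (hv0 : ∀ j, v j ≠ 0)
    (h : MvPolynomial (Fin N) ℚ) (hh : ∀ w ∈ h.support, Pool.Agent.W425.SV.NP v w)
    (hvh : ∀ w ∈ h.support, ∀ j, ¬ ∀ x, w x = v j x)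
    (hB : Hyp v h) :
    ∃ g : MvPolynomial (Fin r) ℚ, g ≠ 0 ∧ ∀ c : Fin r → ℚ, eval c g ≠ 0 → Concl v h c := by
  classical
  obtain ⟨g1, hg1, h1⟩ := gen_rootsJ hr v hv hv0 h hh
  obtain ⟨g2, hg2, h2⟩ := gen_nonDF pF4 hr v (we h) (we_np v h hh) (wc h)
  have hg3 : (∏ j : Fin r, (X j : MvPolynomial (Fin r) ℚ)) ≠ 0 :=
    Finset.prod_ne_zero_iff.2 fun j _ => X_ne_zero j
  refine ⟨g1 * g2 * ∏ j : Fin r, (X j : MvPolynomial (Fin r) ℚ),
    mul_ne_zero (mul_ne_zero hg1 hg2) hg3, fun c hc'' => ?_⟩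
  rw [map_mul] at hc''
  have hc' := left_ne_zero_of_mul hc''
  have hcne : ∀ j, c j ≠ 0 := by
    have h5 := right_ne_zero_of_mul hc''
    rw [map_prod] at h5
    intro j
    have h6 := Finset.prod_ne_zero_iff.1 h5 j (Finset.mem_univ j)
    rwa [eval_X] at h6
  have hc : aeval (fun j => ((c j : ℚ) : ℂ)) (g1 * g2) ≠ 0 := by
    have h0 : aeval (fun j => ((c j : ℚ) : ℂ)) (g1 * g2) = ((eval c (g1 * g2) : ℚ) : ℂ) := by
      have h5 := aeval_algebraMap_apply ℂ c (g1 * g2)
      exact h5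
    rw [h0]
    exact_mod_cast hc'
  rw [map_mul] at hc
  have hb := h1 _ (left_ne_zero_of_mul hc)
  have hnd := h2 _ (right_ne_zero_of_mul hc)
  have hray := pRAY v (we h) hr (we_np v h hh)
  have hq : Pool.Agent.W425.PN.qpoly (Fin.append v (we h)) (Fin.append c (wc h)) =
      spa v c + h := by
    unfold Pool.Agent.W425.PN.qpoly
    rw [Fin.sum_univ_add]
    simp only [Fin.append_left, Fin.append_right]
    congr 1
    have h3 := h_eq (RingHom.id ℚ) h
    rw [MvPolynomial.map_id] at h3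
    exact h3.symm
  have hnq : NonD (Fin.append v (we h)) (fun j => ((Fin.append c (wc h) j : ℚ) : ℂ)) := by
    have h3 := append_map (fun q : ℚ => (q : ℂ)) c (wc h)
    rw [h3]
    exact hnd
  have hcall : ∀ j, Fin.append c (wc h) j ≠ 0 := by
    intro j
    refine Fin.addCases (fun j => ?_) (fun l => ?_) j
    · rw [Fin.append_left]; exact hcne j
    · rw [Fin.append_right]
      exact mem_support_iff.1 (h.support.equivFin.symm l).2
  obtain ⟨S, hS⟩ := poles hFCT hCNT hC (Fin.append v (we h)) (Fin.append c (wc h)) hcall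
    (by omega) hnq
  rw [hq] at hS
  refine ⟨S, fun p _ hp _ _ F hF hFI s₀ hs₀ b hbf => ?_⟩
  rw [map_add, map_spa] at hbf
  obtain ⟨h3, h4⟩ := hb b hbf
  have hm1 : s₀.re = -1 → b.eval (s₀.re : ℂ) = 0 := fun h => by
    rw [h]
    push_cast
    exact h3
  by_cases hs1 : s₀.re = -1
  · exact hm1 hs1
  have hP := (hS p hp F hF hFI s₀ hs₀).resolve_left hs1
  -- a direction exists
  have hN : 0 < N := by
    by_contra hN0
    have : N = 0 := by omega
    subst this
    exact hv0 ⟨0, hr⟩ (funext fun i => i.elim0)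
  obtain ⟨a, ha, hg, -, hre⟩ := hP ⟨0, hN⟩
  obtain ⟨hga, hra⟩ := hray a
  rw [hga] at hg hre
  have hgR : ∀ x : Fin N → ℕ, 0 < gord v x → ((gord v x : ℕ) : ℝ) ≠ 0 := fun x hx => by
    exact_mod_cast hx.ne'
  rcases hB a (hra ha) hg with h | ⟨a', hg', hJ, hq'⟩ | ⟨i, hi⟩
  · exfalso
    apply hs1
    rw [hre, h]
    rw [div_self (hgR a hg)]
  · have h5 := h4 a' hg' hJ
    have h6 : ((∑ i, a i : ℕ) : ℝ) / gord v a = ((∑ i, a' i : ℕ) : ℝ) / gord v a' := by
      have := congrArg (fun q : ℚ => (q : ℝ)) hq'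
      push_cast at this ⊢
      exact this
    rw [hre, h6, ← h5]
    congr 1
    push_cast
    ring
  · obtain ⟨a2, ha2, hg2, hrem, hre2⟩ := hP i
    obtain ⟨hga2, hra2⟩ := hray a2
    rw [hga2] at hg2 hre2
    have hrat : ((∑ i, a i : ℕ) : ℚ) / gord v a = ((∑ i, a2 i : ℕ) : ℚ) / gord v a2 := by
      have h6 : ((∑ i, a i : ℕ) : ℝ) / gord v a = ((∑ i, a2 i : ℕ) : ℝ) / gord v a2 := by
        linarith [hre, hre2]
      apply Rat.cast_injective (α := ℝ)
      push_cast
      push_cast at h6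
      exact h6
    obtain ⟨hai, j0, hf, hv1, hu, hw⟩ := hi a2 (hra2 ha2) hg2 hrat
    have hface : ∀ j, face v a2 j ↔ face (Fin.append v (we h)) a2 (Fin.castAdd _ j) := by
      intro j
      unfold face
      rw [hga2]
      simp only [Fin.append_left]
    have hB1 : B1 (Fin.append v (we h)) i a2 := by
      refine ⟨hai, Fin.castAdd _ j0, (hface j0).1 hf, by rw [Fin.append_left]; exact hv1,
        fun j => ?_⟩
      refine Fin.addCases (fun j => ?_) (fun l => ?_) j
      · intro h7 h8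
        rw [Fin.append_left]
        exact hu j ((hface j).2 h7) fun h9 => h8 (by rw [h9])
      · intro h7 _
        rw [Fin.append_right]
        set w := (h.support.equivFin.symm l).1 with hw'
        have hws : w ∈ h.support := (h.support.equivFin.symm l).2
        have hwe : ∀ x, we h l x = w x := fun x => rfl
        have h8 : ∑ x, a2 x * w x = gord v a2 := by
          have h9 : ∑ x, a2 x * (Fin.append v (we h)) (Fin.natAdd r l) x = _ := h7
          rw [hga2, Fin.append_right] at h9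
          rw [← h9]
          rfl
        rcases hw w hws h8 with h9 | h9
        · rw [hwe]; exact h9
        · exact absurd h9 (hvh w hws j0)
    exfalso
    apply hs1
    have h10 : ∀ x, x ≠ i → a2 x = 0 := by
      intro x hx
      by_contra h11
      exact hrem ⟨hB1, x, hx, h11⟩
    have h12 : ∑ x, a2 x = a2 i := Finset.sum_eq_single i (fun x _ hx => h10 x hx)
      (fun h => absurd (Finset.mem_univ _) h)
    have h13 : gord v a2 = a2 i := by
      have h14 : ∑ x, a2 x * v j0 x = gord v a2 := hf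
      rw [← h14, Finset.sum_eq_single i (fun x _ hx => by rw [h10 x hx, zero_mul])
        (fun h => absurd (Finset.mem_univ _) h), hv1, mul_one]
    rw [hre2, h12, h13, div_self (by exact_mod_cast hai)]

end Pool.Agent.W425.BF
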