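import Pool.Agent.W425.BF.Fin

set_option autoImplicit false

/-! Project BF: the monomials of the `v j` may occur in `h`. -/

namespace Pool.Agent.W425.BF

open MvPolynomial Pool.Agent.H628R4.TP Pool.Agent.W425.MM Pool.Agent.W425.GN
open Pool.Agent.W425.ND (spa)
open Pool.Agent.W426.SM (gord IsRay face)

variable {r N : ℕ}

/-- the exponent as a finitely supported function -/
noncomputable def ex (v : Fin N → ℕ) : Fin N →₀ ℕ := Finsupp.equivFunOnFinite.symm v

lemma spa_eq {R : Type} [CommRing R] (v : Fin r → Fin N → ℕ) (c : Fin r → R) :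
    spa v c = ∑ j, monomial (ex (v j)) (c j) := by
  unfold spa
  refine Finset.sum_congr rfl fun j _ => ?_
  rw [MvPolynomial.monomial_eq, Finsupp.prod_fintype _ _ (fun _ => pow_zero _)]
  rfl

lemma spa_add {R : Type} [CommRing R] (v : Fin r → Fin N → ℕ) (c d : Fin r → R) :
    spa v (fun j => c j + d j) = spa v c + spa v d := by
  rw [spa_eq, spa_eq, spa_eq, ← Finset.sum_add_distrib]
  exact Finset.sum_congr rfl fun j _ => map_add (monomial (ex (v j))) (c j) (d j)

/-- the coefficients of `h` at the `v j` -/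
noncomputable def cof {F : Type} [Field F] (v : Fin r → Fin N → ℕ) (h : MvPolynomial (Fin N) F)
    (j : Fin r) : F := coeff (ex (v j)) h

/-- `h` without the monomials of the `v j` -/
noncomputable def hz {F : Type} [Field F] (v : Fin r → Fin N → ℕ) (h : MvPolynomial (Fin N) F) :
    MvPolynomial (Fin N) F := h - spa v (cof v h)

lemma coeff_hz_v {F : Type} [Field F] (v : Fin r → Fin N → ℕ) (hv : Function.Injective v)
    (h : MvPolynomial (Fin N) F) (j : Fin r) : coeff (ex (v j)) (hz v h) = 0 := by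
  unfold hz
  rw [coeff_sub]
  have := coef_spa v hv (j0 := j) (cof v h)
  rw [show (Finsupp.equivFunOnFinite.symm (v j) : Fin N →₀ ℕ) = ex (v j) from rfl] at this
  rw [this]
  exact sub_self _

lemma hz_support {F : Type} [Field F] (v : Fin r → Fin N → ℕ) (hv : Function.Injective v)
    (h : MvPolynomial (Fin N) F) :
    (∀ w ∈ (hz v h).support, w ∈ h.support) ∧
      ∀ w ∈ (hz v h).support, ∀ j, ¬ ∀ x, w x = v j x := by
  have h2 : ∀ w ∈ (hz v h).support, ∀ j, w ≠ ex (v j) := by
    intro w hw j hj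
    rw [mem_support_iff] at hw
    apply hw
    rw [hj]
    exact coeff_hz_v v hv h j
  refine ⟨fun w hw => ?_, fun w hw j hj => h2 w hw j (Finsupp.ext hj)⟩
  rw [mem_support_iff]
  have h3 := mem_support_iff.1 hw
  intro h4
  apply h3
  unfold hz
  rw [coeff_sub, h4, spa_eq, coeff_sum, Finset.sum_eq_zero, sub_zero]
  intro j _
  rw [coeff_monomial, if_neg]
  exact fun h5 => h2 w hw j h5.symm

lemma hz_eq {F : Type} [Field F] (v : Fin r → Fin N → ℕ) (h : MvPolynomial (Fin N) F)
    (c : Fin r → F) : spa v c + h = spa v (fun j => c j + cof v h j) + hz v h := by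
  rw [spa_add]
  unfold hz
  ring

lemma hyp_hz {F : Type} [Field F] (v : Fin r → Fin N → ℕ) (hv : Function.Injective v)
    (h : MvPolynomial (Fin N) F) (hB : Hyp v h) : Hyp v (hz v h) := by
  intro a ha hg
  rcases hB a ha hg with h1 | h1 | ⟨i, hi⟩
  · exact Or.inl h1
  · exact Or.inr (Or.inl h1)
  · refine Or.inr (Or.inr ⟨i, fun a' ha' hg' hq => ?_⟩)
    obtain ⟨hai, j0, hf, hv1, hu, hw⟩ := hi a' ha' hg' hq
    exact ⟨hai, j0, hf, hv1, hu, fun w hw' => hw w ((hz_support v hv h).1 w hw')⟩

/-- the shift of the coefficients -/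
noncomputable def shf {F : Type} [Field F] (d : Fin r → F) (g : MvPolynomial (Fin r) F) :
    MvPolynomial (Fin r) F := bind₁ (fun j => X j + C (d j)) g

lemma shf_eval {F K : Type} [Field F] [Field K] [Algebra F K] (d : Fin r → F)
    (g : MvPolynomial (Fin r) F) (c : Fin r → K) :
    aeval c (shf d g) = aeval (fun j => c j + algebraMap F K (d j)) g := by
  unfold shf
  rw [aeval_bind₁]
  congr 1
  ext j
  simp

lemma shf_ne {F : Type} [Field F] (d : Fin r → F) (g : MvPolynomial (Fin r) F) (hg : g ≠ 0) :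
    shf d g ≠ 0 := by
  intro h
  apply hg
  have h1 : bind₁ (fun j => X j - C (d j)) (shf d g) = g := by
    unfold shf
    rw [bind₁_bind₁]
    have h2 : (fun j => bind₁ (fun j => X j - C (d j)) (X j + C (d j) : MvPolynomial (Fin r) F)) =
        X := by
      funext j
      rw [map_add, bind₁_X_right, bind₁_C_right, sub_add_cancel]
    rw [h2]
    exact aeval_X_left_apply g
  rw [← h1, h, map_zero]

/-- **Poles of p-adic zeta functions, generic coefficients.** -/
theorem gen_padicB (hFCT : TaskFCT) (hCNT : TaskCNT) (hC : TaskCOMB) (hr : 0 < r)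
    (v : Fin r → Fin N → ℕ) (hv : Function.Injective v) (hv0 : ∀ j, v j ≠ 0)
    (h : MvPolynomial (Fin N) ℚ) (hh : ∀ w ∈ h.support, Pool.Agent.W425.SV.NP v w)
    (hB : Hyp v h) :
    ∃ g : MvPolynomial (Fin r) ℚ, g ≠ 0 ∧ ∀ c : Fin r → ℚ, eval c g ≠ 0 → Concl v h c := by
  obtain ⟨g, hg, hgc⟩ := gen_padic0 hFCT hCNT hC hr v hv hv0 (hz v h)
    (fun w hw => hh w ((hz_support v hv h).1 w hw)) (hz_support v hv h).2 (hyp_hz v hv h hB)
  refine ⟨shf (cof v h) g, shf_ne _ _ hg, fun c hc => ?_⟩
  have h1 := hgc (fun j => c j + cof v h j) (by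
    intro h2
    apply hc
    have h3 := shf_eval (K := ℚ) (cof v h) g c
    rw [← coe_aeval_eq_eval] at h2 ⊢
    rw [← h2]
    exact h3)
  unfold Concl at h1 ⊢
  rw [hz_eq v h c]
  exact h1

end Pool.Agent.W425.BF
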