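import Pool.Agent.W425.BF.Stm
import Pool.Agent.W565.SMZC

set_option autoImplicit false

/-! Project BF: generating functions. -/

namespace Pool.Agent.W425.BF

theorem gf : TaskGF := by
  intro n ι _ h d
  let e := Fintype.equivFin ι
  obtain ⟨T, ray, P, h1, h2⟩ := Pool.Agent.W565.SMZC.main (fun j => h (e.symm j))
    (fun j => d (e.symm j)) ∅
  have hset : Pool.Agent.W426.SM.poly (fun j => h (e.symm j)) (fun j => d (e.symm j)) ∅ =
      Pol h d := by
    ext u
    constructor
    · rintro ⟨ha, -⟩ j
      have := ha (e j)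
      simpa using this
    · intro ha
      exact ⟨fun j => ha (e.symm j), fun j hj => absurd hj (Finset.notMem_empty _)⟩
  refine ⟨T, ray, P, fun q => ⟨(h1 q).1, fun j => ?_, fun u hu hu2 => ?_⟩, fun y hy => ?_⟩
  · have := (h1 q).2.1 (e j)
    simpa using this
  · exact (h1 q).2.2.2 u hu fun j hj => hu2 (e.symm j) hj
  · rw [← h2 y hy, hset]

end Pool.Agent.W425.BF
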