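import Pool.Agent.W425.BF.Zm
import Pool.Agent.W425.PN.Fin

set_option autoImplicit false

/-! Project BF: poles of the p-adic zeta functions of nondegenerate polynomials. -/

namespace Pool.Agent.W425.BF

open MeasureTheory Pool.Agent.W426.SM Pool.Agent.W803.SM
open Pool.Agent.W425.MM (NonD)
open Pool.Agent.W425.PN (ford_eq qpoly spoly_eq idn_of)

/-- the polynomials in `t` -/
noncomputable def gam {k : ℕ} (p : ℕ) (C₀ C₁ : Finset (Fin k) → ℝ) (τ : Finset (Fin k)) :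
    Polynomial ℂ :=
  Polynomial.C ((C₀ τ : ℝ) : ℂ) * (1 - Polynomial.C ((p : ℂ)⁻¹) * Polynomial.X) +
    Polynomial.C ((C₁ τ : ℝ) : ℂ) * Polynomial.X

theorem rel_of {n k : ℕ} (m : Fin k → Fin n → ℕ) (i : Fin n) (p : ℕ) (hp : 2 ≤ p)
    (C₀ C₁ : Finset (Fin k) → ℝ) (h : CRel m p C₀ C₁) :
    ∃ E : ℂ, Rel m i p E (gam p C₀ C₁) := by
  obtain ⟨E, U, h0, h1, hU, h2⟩ := h
  have hp1 : ((p : ℝ) - 1) ≠ 0 := by
    have : (2 : ℝ) ≤ p := by exact_mod_cast hp
    linarith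
  have hp0 : (p : ℂ) ≠ 0 := by exact_mod_cast (by omega : p ≠ 0)
  have hg : ∀ τ, gam p C₀ C₁ τ = Polynomial.C ((E : ℂ) - (U τ : ℂ)) *
      (1 - Polynomial.C ((p : ℂ)⁻¹) * Polynomial.X) +
      Polynomial.C ((U τ : ℂ) * (1 - (p : ℂ)⁻¹)) * Polynomial.X := by
    intro τ
    unfold gam
    rw [h0, h1]
    push_cast
    rfl
  refine ⟨(E : ℂ), fun j0 hj0 => ?_, fun j0 τ0 hj0 hτ0 _ => ?_⟩
  · have h3 := h2 i j0 ∅ hj0 (fun l hl => absurd hl (Finset.notMem_empty _))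
    rw [hU] at h3
    have h4 : U {j0} = 0 := by
      have h5 : ((p : ℝ) - 1) * U (insert j0 ∅) = 0 := by linarith
      exact (mul_eq_zero.1 h5).resolve_left hp1
    rw [hg, h4]
    simp
  · have h3 := h2 i j0 τ0 hj0 hτ0
    have h4 : ((p : ℂ) - 1) * (U (insert j0 τ0) : ℂ) + (U τ0 : ℂ) = (E : ℂ) := by
      exact_mod_cast congrArg (fun x : ℝ => (x : ℂ)) h3
    rw [hg, hg]
    have h5 : (U τ0 : ℂ) = (E : ℂ) - ((p : ℂ) - 1) * (U (insert j0 τ0) : ℂ) := by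
      rw [← h4]; ring
    rw [h5]
    apply Polynomial.funext
    intro t
    simp only [Polynomial.eval_add, Polynomial.eval_mul, Polynomial.eval_C, Polynomial.eval_sub,
      Polynomial.eval_one, Polynomial.eval_X]
    field_simp
    ring

lemma aux (W C0 C1 X t : ℂ) (h : 1 - X ≠ 0) :
    (1 - X) * (W * (C0 + C1 * (t / (1 - X)))) = W * (C0 * (1 - X) + C1 * t) := by
  field_simp

/-- the numerator is entire -/
theorem zf (hC : TaskCOMB) {n k : ℕ} (m : Fin k → Fin n → ℕ) (i : Fin n) (c : Fin k → ℚ)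
    (hk : 0 < k) (h2 : ZMd 0 m c 1) :
    ∃ S : Finset ℕ, ∀ (p : ℕ) [Fact p.Prime], p ∉ S →
      ∀ [MeasurableSpace (Fin n → PadicInt p)] [BorelSpace (Fin n → PadicInt p)],
      ∃ (T : ℕ) (ray : Fin T → Fin n → ℕ) (H : ℂ → ℂ),
        (∀ q, IsRay m (ray q) ∧ ¬ Rem m i (ray q)) ∧
        Differentiable ℂ H ∧ ∀ s : ℂ, 0 < s.re →
          H s = (1 - (p : ℂ) ^ (-(1 + s))) *
            (∏ q, (1 - (p : ℂ) ^ (-(((∑ i, ray q i : ℕ) : ℂ) + s * gord m (ray q))))) *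
            ∫ x, ((pval p (spoly 0 m c 1) x : ℝ) : ℂ) ^ s
              ∂(Measure.addHaar : Measure (Fin n → PadicInt p)) := by
  obtain ⟨S, hS⟩ := h2
  refine ⟨S, ?_⟩
  intro p hpf hpS hmeas hborel
  obtain ⟨V, C₀, C₁, hV, hCR, hint⟩ := hS p hpS
  have hp : 2 ≤ p := hpf.out.two_le
  have hp0 : (p : ℂ) ≠ 0 := by exact_mod_cast (by omega : p ≠ 0)
  obtain ⟨E, hE⟩ := rel_of m i p hp C₀ C₁ hCR
  obtain ⟨T, ray, hray, hcomb⟩ := hC m i hk
  obtain ⟨A, hA⟩ := hcomb p hp E _ hE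
  have hpow : ∀ (a N : ℕ) (s : ℂ), (p : ℂ) ^ (-((a : ℂ) + s * N)) =
      (p : ℂ)⁻¹ ^ a * ((p : ℂ) ^ (-s)) ^ N := by
    intro a N s
    rw [neg_add, Complex.cpow_add _ _ hp0, Complex.cpow_neg, Complex.cpow_natCast, inv_pow,
      ← Complex.cpow_nat_mul]
    congr 2
    ring
  refine ⟨T, ray, fun s => V * A.eval ((p : ℂ) ^ (-s)), hray, ?_, fun s hs => ?_⟩
  · refine (differentiable_const _).mul ?_
    exact (Polynomial.differentiable A).comp (diff_pow hp differentiable_id.neg)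
  · set t : ℂ := (p : ℂ) ^ (-s) with ht
    have ht1 : ‖t‖ < 1 := by
      rw [ht, Complex.norm_natCast_cpow_of_pos (by omega)]
      refine Real.rpow_lt_one_of_one_lt_of_neg (by exact_mod_cast (by omega : 1 < p)) ?_
      rw [Complex.neg_re]
      linarith
    have h1 := hA t ht1
    rw [hint s hs]
    show (V : ℂ) * A.eval t = _
    rw [← h1]
    have hX : (p : ℂ) ^ (-(1 + s)) = (p : ℂ)⁻¹ * t := by
      have := hpow 1 1 s
      simpa using this
    have hX1 : 1 - (p : ℂ)⁻¹ * t ≠ 0 := by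
      intro h
      have h3 : (p : ℂ)⁻¹ * t = 1 := (sub_eq_zero.1 h).symm
      have h4 : ‖(p : ℂ)⁻¹ * t‖ < 1 := by
        rw [norm_mul, norm_inv, Complex.norm_natCast]
        have h5 : ((p : ℝ))⁻¹ ≤ 1 := inv_le_one_of_one_le₀ (by exact_mod_cast (by omega : 1 ≤ p))
        calc (p : ℝ)⁻¹ * ‖t‖ ≤ 1 * ‖t‖ := by gcongr
          _ < 1 := by rw [one_mul]; exact ht1
      rw [h3, norm_one] at h4
      exact lt_irrefl _ h4
    have hsum : ∀ u : Fin n → ℕ,
        (1 - (p : ℂ) ^ (-(1 + s))) * (((p : ℂ) ^ (-(((∑ i, u i : ℕ) : ℂ) + s * ford 0 m 1 u))) *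
                ((C₀ (Finset.univ.filter fun j => ∑ i, u i * m j i = gord m u) : ℂ) +
                  (C₁ (Finset.univ.filter fun j => ∑ i, u i * m j i = gord m u) : ℂ) *
                    ((p : ℂ) ^ (-(((1 : ℕ) : ℂ) * s)) /
                      (1 - (p : ℂ) ^ (-(1 + ((1 : ℕ) : ℂ) * s)))))) =
        (p : ℂ)⁻¹ ^ (∑ x, u x) * t ^ gord m u * (gam p C₀ C₁ (filt m u)).eval t := by
      intro u
      rw [ford_eq, hpow, Nat.cast_one, one_mul, hX, ← ht]
      unfold gam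
      simp only [Polynomial.eval_add, Polynomial.eval_mul, Polynomial.eval_C,
        Polynomial.eval_sub, Polynomial.eval_one, Polynomial.eval_X]
      show _ = (p : ℂ)⁻¹ ^ (∑ x, u x) * t ^ gord m u *
        ((C₀ (Finset.univ.filter fun j => ∑ i, u i * m j i = gord m u) : ℂ) *
          (1 - (p : ℂ)⁻¹ * t) +
          (C₁ (Finset.univ.filter fun j => ∑ i, u i * m j i = gord m u) : ℂ) * t)
      exact aux _ _ _ _ _ hX1
    have hprod : ∏ q, (1 - (p : ℂ) ^ (-(((∑ i, ray q i : ℕ) : ℂ) + s * gord m (ray q)))) =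
        ∏ q, (1 - (p : ℂ)⁻¹ ^ (∑ x, ray q x) * t ^ gord m (ray q)) :=
      Finset.prod_congr rfl fun q _ => by rw [hpow]
    rw [hprod, ← tsum_congr hsum, tsum_mul_left]
    ring

/-- **Candidate poles, without the rays which are B1 in a given direction.** -/
theorem poles (hFCT : TaskFCT) (hCNT : TaskCNT) (hC : TaskCOMB)
    {n k : ℕ} (m : Fin k → Fin n → ℕ) (c : Fin k → ℚ) (hc : ∀ j, c j ≠ 0)
    (hk : 0 < k) (hnd : NonD m (fun j => ((c j : ℚ) : ℂ))) :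
    ∃ S : Finset ℕ, ∀ (p : ℕ) [Fact p.Prime], p ∉ S →
      ∀ [MeasurableSpace (Fin n → PadicInt p)] [BorelSpace (Fin n → PadicInt p)],
      ∀ F : ℂ → ℂ, MeromorphicOn F Set.univ →
        (∀ s : ℂ, 0 < s.re →
          F s = ∫ x, ((‖MvPolynomial.eval₂ (algebraMap ℚ (Padic p))
                    (fun i => ((x i : PadicInt p) : Padic p)) (qpoly m c)‖ : ℝ) : ℂ) ^ s
                  ∂(MeasureTheory.Measure.addHaar : MeasureTheory.Measure (Fin n → PadicInt p))) →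
        ∀ s₀ : ℂ, meromorphicOrderAt F s₀ < 0 → s₀.re = -1 ∨ ∀ i : Fin n,
          ∃ a : Fin n → ℕ, IsRay m a ∧ 0 < gord m a ∧ ¬ Rem m i a ∧
            s₀.re = -(((∑ i, a i : ℕ) : ℝ) / gord m a) := by
  classical
  have hZ : ZMd 0 m c 1 := zm 0 m c 1 one_pos (zma hFCT hCNT m c hc hk fun u => idn_of m c hnd u)
  choose S hS using fun i : Fin n => zf hC m i c hk hZ
  refine ⟨Finset.univ.biUnion S, ?_⟩
  intro p hp hpS _ _ F hF hFI s₀ hs₀
  by_cases hm1 : s₀.re = -1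
  · exact Or.inl hm1
  refine Or.inr fun i => ?_
  obtain ⟨T, ray, H, hray, hH, hHI⟩ := hS i p fun h =>
    hpS (Finset.mem_biUnion.2 ⟨i, Finset.mem_univ i, h⟩)
  set I : ℂ → ℂ := fun s => ∫ x, ((pval p (spoly 0 m c 1) x : ℝ) : ℂ) ^ s
              ∂(Measure.addHaar : Measure (Fin n → PadicInt p)) with hI
  have hz := Pool.Agent.W22.SM.ZP.main p hp.out.two_le I F H
    (Fin.cons 1 (fun q => ∑ i, ray q i) : Fin (T + 1) → ℕ)
    (Fin.cons 1 (fun q => gord m (ray q)) : Fin (T + 1) → ℕ) ?_ hF hH ?_ ?_ s₀ hs₀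
  · obtain ⟨q, hq1, hq2⟩ := hz
    refine Fin.cases ?_ ?_ q hq1 hq2
    · intro h1 h2
      simp only [Fin.cons_zero] at h1 h2
      exact absurd (by rw [h2]; norm_num) hm1
    · intro q h1 h2
      simp only [Fin.cons_succ] at h1 h2
      exact ⟨ray q, (hray q).1, h1, (hray q).2, h2⟩
  · intro q
    refine Fin.cases ?_ ?_ q
    · simp
    · intro q
      simp only [Fin.cons_succ]
      by_contra h
      have h0 : ∑ i, ray q i = 0 := by omega
      rw [Finset.sum_eq_zero_iff] at h0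
      exact (hray q).1.1 (funext fun i => h0 i (Finset.mem_univ i))
  · intro s hs
    rw [hFI s hs, hI, spoly_eq]
    rfl
  · intro s hs
    rw [hHI s hs, Fin.prod_univ_succ]
    simp only [Fin.cons_zero, Fin.cons_succ, Nat.cast_one]
    rw [mul_one]

end Pool.Agent.W425.BF
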