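import Pool.Agent.W425.BF.Stm
import Pool.Agent.W425.PN.Zma

set_option autoImplicit false

/-! Project BF: distribution of the orders, with the relations between the constants. Adapted from
`W425.PN.Zma`. -/

namespace Pool.Agent.W425.BF

open MeasureTheory Pool.Agent.W426.SM Pool.Agent.W424.SM.ZMU Pool.Agent.W22.SM.ZMA
open Pool.Agent.W425.PN (Idn eval_le_one coe_GG coe_DD nondeg_mod)

/-- the relations between the constants -/
def CRel {n k : ℕ} (m : Fin k → Fin n → ℕ) (p : ℕ) (C₀ C₁ : Finset (Fin k) → ℝ) : Prop :=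
  ∃ (E : ℝ) (U : Finset (Fin k) → ℝ), (∀ τ, C₀ τ = E - U τ) ∧
    (∀ τ, C₁ τ = U τ * (1 - (p : ℝ)⁻¹)) ∧ U ∅ = E ∧
    ∀ (i : Fin n) (j0 : Fin k) (τ0 : Finset (Fin k)), m j0 i = 1 → (∀ l ∈ τ0, m l i = 0) →
      ((p : ℝ) - 1) * U (insert j0 τ0) + U τ0 = E

/-- the conclusion of (ZMA) -/
def ZMAd {n k : ℕ} (m : Fin k → Fin n → ℕ) (c : Fin k → ℚ) : Prop :=
    ∃ S : Finset ℕ, ∀ (p : ℕ) [Fact p.Prime], p ∉ S →
      ∀ [MeasurableSpace (Fin n → PadicInt p)] [BorelSpace (Fin n → PadicInt p)],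
      ∃ C₀ C₁ : Finset (Fin k) → ℝ, CRel m p C₀ C₁ ∧ ∀ u : Fin n → ℕ,
        ((Measure.addHaar : Measure (Fin n → PadicInt p))
            {x | (∀ i, ‖x i‖ = (p : ℝ) ^ (-(u i : ℤ))) ∧
              ‖gp p m c 0 x‖ = (p : ℝ) ^ (-(gord m u : ℤ))}).toReal =
          ((Measure.addHaar : Measure (Fin n → PadicInt p)) Set.univ).toReal *
            (p : ℝ) ^ (-((∑ i, u i : ℕ) : ℤ)) *
            C₀ (Finset.univ.filter fun j => ∑ i, u i * m j i = gord m u) ∧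
        ∀ l : ℕ, ((Measure.addHaar : Measure (Fin n → PadicInt p))
            {x | (∀ i, ‖x i‖ = (p : ℝ) ^ (-(u i : ℤ))) ∧
              ‖gp p m c 0 x‖ = (p : ℝ) ^ (-((gord m u : ℤ) + (l + 1)))}).toReal =
          ((Measure.addHaar : Measure (Fin n → PadicInt p)) Set.univ).toReal *
            (p : ℝ) ^ (-((∑ i, u i : ℕ) : ℤ)) *
            C₁ (Finset.univ.filter fun j => ∑ i, u i * m j i = gord m u) * (p : ℝ) ^ (-(l : ℤ))

section
variable {n k : ℕ} {p : ℕ} [hp : Fact p.Prime]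

/-- the unit points modulo `p` -/
def Un (p n : ℕ) : Set (Fin n → ZMod p) := {y | ∀ x, y x ≠ 0}

/-- the zeros modulo `p` -/
def Zr (p : ℕ) {n k : ℕ} (m : Fin k → Fin n → ℕ) (b : Fin k → ZMod p) (τ : Finset (Fin k)) :
    Set (Fin n → ZMod p) :=
  {y | (∀ x, y x ≠ 0) ∧ ∑ j ∈ τ, b j * ∏ x, y x ^ m j x = 0}

lemma toZMod_GG (m : Fin k → Fin n → ℕ) (cz : Fin k → ℤ_[p]) (τ : Finset (Fin k))
    (y : Fin n → ℤ_[p]) :
    PadicInt.toZMod (GG m (fun j => if j ∈ τ then cz j else 0) y) =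
      ∑ j ∈ τ, PadicInt.toZMod (cz j) * ∏ x, PadicInt.toZMod (y x) ^ m j x := by
  classical
  unfold GG XX
  rw [map_sum, ← Finset.sum_filter_add_sum_filter_not Finset.univ (fun j => j ∈ τ)]
  rw [Finset.sum_eq_zero (s := Finset.univ.filter fun j => j ∉ τ) (fun j hj => by
      simp only
      rw [if_neg (Finset.mem_filter.1 hj).2, zero_mul, map_zero]), add_zero]
  refine Finset.sum_congr (by ext j; simp) fun j hj => ?_
  have hj' : j ∈ τ := by simpa using hj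
  simp only
  rw [if_pos hj', map_mul, map_prod]
  simp only [map_pow]

lemma uu_eq (m : Fin k → Fin n → ℕ) (cz : Fin k → ℤ_[p]) (τ : Finset (Fin k)) :
    UU m (fun j => if j ∈ τ then cz j else 0) 0 =
      {y | (fun x => PadicInt.toZMod (y x)) ∈ Zr p m (fun j => PadicInt.toZMod (cz j)) τ} := by
  ext y
  show ((∀ i, ‖y i‖ = 1) ∧ (p : ℤ_[p]) ^ (0 + 1) ∣ GG m _ y) ↔
    ((∀ x, PadicInt.toZMod (y x) ≠ 0) ∧ _)
  rw [zero_add, pow_one, ← toZMod_eq_zero', toZMod_GG]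
  refine and_congr (forall_congr' fun x => ?_) Iff.rfl
  exact toZMod_ne_zero.symm

lemma un_eq : {y : Fin n → ℤ_[p] | ∀ i, ‖y i‖ = 1} =
      {y | (fun x => PadicInt.toZMod (y x)) ∈ Un p n} := by
  ext y
  exact forall_congr' fun x => toZMod_ne_zero.symm

lemma nz_eq (m : Fin k → Fin n → ℕ) (cz : Fin k → ℤ_[p]) (τ : Finset (Fin k)) :
    {y : Fin n → ℤ_[p] | (∀ i, ‖y i‖ = 1) ∧
      ‖GG m (fun j => if j ∈ τ then cz j else 0) y‖ = 1} =
      {y | (fun x => PadicInt.toZMod (y x)) ∈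
        Un p n \ Zr p m (fun j => PadicInt.toZMod (cz j)) τ} := by
  ext y
  show ((∀ i, ‖y i‖ = 1) ∧ ‖GG m _ y‖ = 1) ↔ ((∀ x, PadicInt.toZMod (y x) ≠ 0) ∧ ¬ (_ ∧ _))
  rw [← toZMod_ne_zero, toZMod_GG]
  have h : (∀ i, ‖y i‖ = 1) ↔ ∀ x, PadicInt.toZMod (y x) ≠ 0 :=
    forall_congr' fun x => toZMod_ne_zero.symm
  rw [h]
  constructor
  · rintro ⟨h1, h2⟩
    exact ⟨h1, fun h3 => h2 h3.2⟩
  · rintro ⟨h1, h2⟩
    exact ⟨h1, fun h3 => h2 ⟨h1, h3⟩⟩

lemma ncard_un : (Un p n).ncard = (p - 1) ^ n := by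
  classical
  have h : Un p n = ↑(Fintype.piFinset fun _ : Fin n => (Finset.univ.erase (0 : ZMod p))) := by
    ext y
    simp [Un]
  rw [h, Set.ncard_coe_finset, Fintype.card_piFinset]
  simp [ZMod.card]

theorem crel (hFCT : TaskFCT) (hCNT : TaskCNT) (m : Fin k → Fin n → ℕ)
    [MeasurableSpace (Fin n → PadicInt p)] [BorelSpace (Fin n → PadicInt p)]
    (μ : Measure (Fin n → PadicInt p))
    (hμ : μ = (Measure.addHaar : Measure (Fin n → PadicInt p))) (cz : Fin k → ℤ_[p])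
    (hcz : ∀ j, ‖cz j‖ = 1) :
    CRel m p (fun τ => (μ {y | (∀ i, ‖y i‖ = 1) ∧
        ‖GG m (fun j => if j ∈ τ then cz j else 0) y‖ = 1}).toReal / (μ Set.univ).toReal)
      (fun τ => (μ (UU m (fun j => if j ∈ τ then cz j else 0) 0)).toReal /
        (μ Set.univ).toReal * (1 - (p : ℝ)⁻¹)) := by
  subst hμ
  set μ : Measure (Fin n → PadicInt p) := Measure.addHaar with hμ
  have hV : 0 < (μ Set.univ).toReal := by
    refine ENNReal.toReal_pos ?_ (measure_ne_top μ _)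
    exact (isOpen_univ.measure_pos μ Set.univ_nonempty).ne'
  have hp0 : (p : ℝ) ≠ 0 := by exact_mod_cast hp.out.pos.ne'
  have hfin : ∀ S : Set (Fin n → ZMod p), S.Finite := fun S => Set.toFinite S
  set b : Fin k → ZMod p := fun j => PadicInt.toZMod (cz j) with hb
  refine ⟨((Un p n).ncard : ℝ) / (p : ℝ) ^ n, fun τ => ((Zr p m b τ).ncard : ℝ) / (p : ℝ) ^ n,
    fun τ => ?_, fun τ => ?_, ?_, fun i j0 τ0 h1 h2 => ?_⟩
  · simp only
    rw [nz_eq, hCNT p]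
    rw [← hμ]
    have h3 : ((Un p n \ Zr p m b τ).ncard : ℝ) = (Un p n).ncard - (Zr p m b τ).ncard := by
      have h4 : Zr p m b τ ⊆ Un p n := fun y hy => hy.1
      have h5 := Set.ncard_sdiff_add_ncard_of_subset h4 (hfin _)
      have h6 : ((Un p n \ Zr p m b τ).ncard : ℝ) + (Zr p m b τ).ncard = (Un p n).ncard := by
        exact_mod_cast h5
      linarith
    rw [h3]
    field_simp
  · simp only
    rw [uu_eq, hCNT p, ← hμ]
    field_simp
    rw [hb]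
    ring
  · simp only
    congr 3
    ext y
    simp [Un, Zr]
  · have h3 := hFCT p m i j0 τ0 b h1 h2 (toZMod_ne_zero.2 (hcz j0))
    have h4 : ((p - 1 : ℕ) : ℝ) = (p : ℝ) - 1 := by
      rw [Nat.cast_sub hp.out.one_lt.le]
      norm_num
    have h5 : ((p : ℝ) - 1) * (Zr p m b (insert j0 τ0)).ncard + (Zr p m b τ0).ncard =
        (Un p n).ncard := by
      rw [ncard_un, Nat.cast_pow, ← h4]
      exact_mod_cast h3
    rw [← h5]
    ring

end

/-- (ZMA) for nondegenerate polynomials -/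
theorem zma (hFCT : TaskFCT) (hCNT : TaskCNT) {n k : ℕ} (m : Fin k → Fin n → ℕ)
    (c : Fin k → ℚ) (hc : ∀ j, c j ≠ 0) (hk : 0 < k)
    (hid : ∀ u : Fin n → ℕ, Idn m c (Finset.univ.filter fun j => ∑ i, u i * m j i = gord m u)) :
    ZMAd m c := by
  classical
  -- the identities
  have hid' : ∀ τ : Finset (Fin k), ∃ (M : ℕ) (B0 : MvPolynomial (Fin n) ℚ)
      (B : Fin n → MvPolynomial (Fin n) ℚ),
      (∃ u : Fin n → ℕ, τ = Finset.univ.filter fun j => ∑ i, u i * m j i = gord m u) →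
      (∏ i, MvPolynomial.X i : MvPolynomial (Fin n) ℚ) ^ M =
      B0 * (∑ j ∈ τ, MvPolynomial.C (c j) * ∏ i, MvPolynomial.X i ^ m j i) +
        ∑ i, B i * ∑ j ∈ τ, MvPolynomial.C (c j * (m j i : ℚ)) *
          ∏ i', MvPolynomial.X i' ^ m j i' := by
    intro τ
    by_cases h : ∃ u : Fin n → ℕ, τ = Finset.univ.filter fun j => ∑ i, u i * m j i = gord m u
    · obtain ⟨u, hu⟩ := h
      obtain ⟨M, B0, B, hB⟩ := hid u
      exact ⟨M, B0, B, fun _ => by rw [hu]; exact hB⟩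
    · exact ⟨0, 0, fun _ => 0, fun h' => absurd h' h⟩
  choose M B0 B hB using hid'
  refine ⟨(Finset.univ.biUnion fun j => (c j).num.natAbs.primeFactors) ∪
    ((Finset.univ.biUnion fun j => (c j).den.primeFactors) ∪
    Finset.univ.biUnion fun τ : Finset (Fin k) =>
      ((B0 τ).support.biUnion fun w => ((B0 τ).coeff w).den.primeFactors) ∪
      Finset.univ.biUnion fun i => (B τ i).support.biUnion fun w =>
        ((B τ i).coeff w).den.primeFactors), ?_⟩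
  intro p hp hpS' _ _
  rw [Finset.mem_union, not_or] at hpS'
  have hpS := hpS'.2
  rw [Finset.mem_union, not_or] at hpS
  have hrat : ∀ q : ℚ, p ∉ q.den.primeFactors → ‖((q : ℚ) : ℚ_[p])‖ ≤ 1 := fun q hq =>
    Padic.norm_rat_le_one fun hd => hq (Nat.mem_primeFactors.2 ⟨hp.out, hd, q.den_ne_zero⟩)
  have hcn : ∀ j, ‖((c j : ℚ) : ℚ_[p])‖ ≤ 1 := fun j =>
    hrat _ fun h => hpS.1 (Finset.mem_biUnion.2 ⟨j, Finset.mem_univ j, h⟩)
  have hB0n : ∀ τ, ∀ w ∈ (B0 τ).support, ‖(((B0 τ).coeff w : ℚ) : ℚ_[p])‖ ≤ 1 := fun τ w hw =>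
    hrat _ fun h => hpS.2 (Finset.mem_biUnion.2 ⟨τ, Finset.mem_univ τ,
      Finset.mem_union_left _ (Finset.mem_biUnion.2 ⟨w, hw, h⟩)⟩)
  have hBn : ∀ τ i, ∀ w ∈ (B τ i).support, ‖(((B τ i).coeff w : ℚ) : ℚ_[p])‖ ≤ 1 :=
    fun τ i w hw => hrat _ fun h => hpS.2 (Finset.mem_biUnion.2 ⟨τ, Finset.mem_univ τ,
      Finset.mem_union_right _ (Finset.mem_biUnion.2 ⟨i, Finset.mem_univ i,
        Finset.mem_biUnion.2 ⟨w, hw, h⟩⟩)⟩)
  have hp0 : (0 : ℝ) < p := by exact_mod_cast hp.out.pos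
  let cz : Fin k → ℤ_[p] := fun j => ⟨((c j : ℚ) : ℚ_[p]), hcn j⟩
  let bt : Finset (Fin k) → Fin k → ℤ_[p] := fun τ j => if j ∈ τ then cz j else 0
  let μ : Measure (Fin n → PadicInt p) := Measure.addHaar
  have hμ : (Measure.addHaar : Measure (Fin n → PadicInt p)) = μ := rfl
  rw [hμ]
  have hV : 0 < (μ Set.univ).toReal := by
    refine ENNReal.toReal_pos ?_ (measure_ne_top μ _)
    exact (isOpen_univ.measure_pos μ Set.univ_nonempty).ne'
  refine ⟨fun τ => (μ {y | (∀ i, ‖y i‖ = 1) ∧ ‖GG m (bt τ) y‖ = 1}).toReal / (μ Set.univ).toReal,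
    fun τ => (μ (UU m (bt τ) 0)).toReal / (μ Set.univ).toReal * (1 - (p : ℝ)⁻¹),
    crel hFCT hCNT m μ rfl cz (fun j => ?_), ?_⟩
  · have h1 : ‖cz j‖ = ‖((c j : ℚ) : ℚ_[p])‖ := rfl
    rw [h1]
    refine le_antisymm (hcn j) ?_
    have h2 : ‖(((c j)⁻¹ : ℚ) : ℚ_[p])‖ ≤ 1 := hrat _ fun h => hpS'.1 (Finset.mem_biUnion.2
      ⟨j, Finset.mem_univ j, by
        rw [← Rat.den_inv_of_ne_zero (hc j)]
        exact h⟩)
    rw [Rat.cast_inv, norm_inv] at h2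
    have h3 : 0 < ‖((c j : ℚ) : ℚ_[p])‖ := norm_pos_iff.2 (by exact_mod_cast hc j)
    rwa [inv_le_one₀ h3] at h2
  intro u
  set δ : Fin k → ℕ := fun j => ∑ i, u i * m j i - gord m u with hδ
  have hδ0 : ∀ j, δ j = 0 ↔ ∑ i, u i * m j i = gord m u := by
    intro j
    have := gord_le m u j
    simp only [hδ]
    omega
  set τ := Finset.univ.filter fun j => ∑ i, u i * m j i = gord m u with hτ
  have hmem : ∀ j, j ∈ τ ↔ δ j = 0 := fun j => by rw [hδ0, hτ]; simp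
  let b : Fin k → ℤ_[p] := fun j => cz j * (p : ℤ_[p]) ^ δ j
  have hgp : ∀ y : Fin n → PadicInt p, ‖gp p m c δ y‖ = ‖GG m b y‖ := by
    intro y
    rw [PadicInt.norm_def, coe_GG]
    congr 1
  have hmodX : ∀ (y : Fin n → PadicInt p) (j : Fin k),
      PadicInt.toZMod (XX m b y j) = PadicInt.toZMod (XX m (bt τ) y j) := by
    intro y j
    unfold XX
    rw [map_mul PadicInt.toZMod (b j), map_mul PadicInt.toZMod (bt τ j)]
    congr 1
    show PadicInt.toZMod (cz j * (p : ℤ_[p]) ^ δ j) =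
      PadicInt.toZMod (if j ∈ τ then cz j else 0)
    by_cases h : δ j = 0
    · rw [if_pos ((hmem j).2 h), h, pow_zero, mul_one]
    · rw [if_neg (fun h' => h ((hmem j).1 h')), map_zero, map_mul, map_pow, toZMod_p, zero_pow h,
        mul_zero]
  have hmod : ∀ y : Fin n → PadicInt p,
      PadicInt.toZMod (GG m b y) = PadicInt.toZMod (GG m (bt τ) y) := by
    intro y
    unfold GG
    rw [map_sum, map_sum]
    exact Finset.sum_congr rfl fun j _ => hmodX y j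
  have hmodD : ∀ (y : Fin n → PadicInt p) (i : Fin n),
      PadicInt.toZMod (DD m b i y) = PadicInt.toZMod (DD m (bt τ) i y) := by
    intro y i
    unfold DD
    rw [map_sum, map_sum]
    refine Finset.sum_congr rfl fun j _ => ?_
    rw [map_mul, map_mul, hmodX y j]
  have hnd : ∀ y : Fin n → ℤ_[p], (∀ i, ‖y i‖ = 1) → ‖GG m b y‖ < 1 →
      ∃ i, ‖DD m b i y‖ = 1 := by
    intro y h1 h2
    rw [← toZMod_eq_zero, hmod y, toZMod_eq_zero] at h2
    obtain ⟨i, hi⟩ := nondeg_mod m c τ (M τ) (B0 τ) (B τ) (hB τ ⟨u, hτ⟩) (hB0n τ) (hBn τ)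
      (bt τ) (fun j => by
        show ((if j ∈ τ then cz j else 0 : ℤ_[p]) : ℚ_[p]) = _
        split_ifs
        · rfl
        · rfl) y h1 h2
    refine ⟨i, ?_⟩
    rw [← toZMod_ne_zero, hmodD y i, toZMod_ne_zero]
    exact hi
  have hUU0 : UU m b 0 = UU m (bt τ) 0 := by
    ext y
    show (∀ i, ‖y i‖ = 1) ∧ (p : ℤ_[p]) ^ (0 + 1) ∣ GG m b y ↔
      (∀ i, ‖y i‖ = 1) ∧ (p : ℤ_[p]) ^ (0 + 1) ∣ GG m (bt τ) y
    rw [zero_add, pow_one, ← toZMod_eq_zero', ← toZMod_eq_zero', hmod y]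
  have hpne : (p : ℝ) ≠ 0 := hp0.ne'
  have h1 : (μ {y | (∀ i, ‖y i‖ = 1) ∧ ‖gp p m c δ y‖ = 1}).toReal =
      (μ Set.univ).toReal * ((μ {y | (∀ i, ‖y i‖ = 1) ∧ ‖GG m (bt τ) y‖ = 1}).toReal /
      (μ Set.univ).toReal) := by
    have hset : {y : Fin n → PadicInt p | (∀ i, ‖y i‖ = 1) ∧ ‖gp p m c δ y‖ = 1} =
        {y | (∀ i, ‖y i‖ = 1) ∧ ‖GG m (bt τ) y‖ = 1} := by
      ext y
      simp only [Set.mem_ofPred_eq, hgp y]
      rw [← toZMod_ne_zero, ← toZMod_ne_zero, hmod y]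
    rw [hset]
    field_simp
  have h2 : ∀ l : ℕ, (μ {y | (∀ i, ‖y i‖ = 1) ∧
      ‖gp p m c δ y‖ = (p : ℝ) ^ (-((l : ℤ) + 1))}).toReal =
      (μ Set.univ).toReal * ((μ (UU m (bt τ) 0)).toReal / (μ Set.univ).toReal *
      (1 - (p : ℝ)⁻¹)) * (p : ℝ) ^ (-(l : ℤ)) := by
    intro l
    have hset : {y : Fin n → PadicInt p | (∀ i, ‖y i‖ = 1) ∧
        ‖gp p m c δ y‖ = (p : ℝ) ^ (-((l : ℤ) + 1))} = UU m b l \ UU m b (l + 1) := by
      rw [← diff_eq]
      ext y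
      simp only [Set.mem_ofPred_eq, hgp y]
    rw [hset]
    have hsub : UU m b (l + 1) ⊆ UU m b l := fun y hy =>
      ⟨hy.1, (pow_dvd_pow _ (by omega)).trans hy.2⟩
    rw [measure_sdiff hsub (meas_UU m b (l + 1)).nullMeasurableSet (measure_ne_top μ _),
      ENNReal.toReal_sub_of_le (measure_mono hsub) (measure_ne_top μ _),
      UU_real m b hnd l μ, UU_real m b hnd (l + 1) μ, hUU0]
    have e : (p : ℝ) ^ (-((l + 1 : ℕ) : ℤ)) = (p : ℝ) ^ (-(l : ℤ)) * (p : ℝ)⁻¹ := by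
      rw [← zpow_sub_one₀ hpne]
      congr 1
      push_cast
      ring
    rw [e]
    field_simp
  constructor
  · have h3 := set_eq (p := p) m c u 1
    rw [mul_one] at h3
    rw [h3, ← hμ, measure_image, hμ, h1]
    ring
  · intro l
    have h3 := set_eq (p := p) m c u ((p : ℝ) ^ (-((l : ℤ) + 1)))
    rw [← zpow_add₀ hp0.ne', ← neg_add] at h3
    rw [h3, ← hμ, measure_image, hμ, h2 l]
    ring

end Pool.Agent.W425.BF
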